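import Pool.Agent.H62.HE.Defs

/-! Module PL of MP_6b5a9a_nt: extraction of an `ℓ`-th root (helper91). -/

open Polynomial

namespace Pool.Agent.H91.HE

open Pool.Agent.H62.HE

universe u

section Bd

variable {k : Type u} [Field k] {Γ₀ : Type u} [LinearOrderedCommGroupWithZero Γ₀]
  (v : Valuation k Γ₀)

/-- all coefficients have valuation at most `γ` -/
def Pd (γ : Γ₀) (p : k[X]) : Prop := ∀ i, v (p.coeff i) ≤ γ

lemma Pd.mono {γ δ : Γ₀} {p : k[X]} (h : Pd v γ p) (hγ : γ ≤ δ) : Pd v δ p :=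
  fun i => (h i).trans hγ

lemma Pd.add {γ : Γ₀} {p q : k[X]} (hp : Pd v γ p) (hq : Pd v γ q) : Pd v γ (p + q) := by
  intro i
  rw [coeff_add]
  exact v.map_add_le (hp i) (hq i)

lemma Pd.mul {γ δ : Γ₀} {p q : k[X]} (hp : Pd v γ p) (hq : Pd v δ q) : Pd v (γ * δ) (p * q) := by
  intro i
  rw [coeff_mul]
  apply v.map_sum_le
  intro x _
  rw [map_mul]
  exact mul_le_mul' (hp _) (hq _)

lemma Pd.mul_one {γ : Γ₀} {p q : k[X]} (hp : Pd v γ p) (hq : Pd v 1 q) : Pd v γ (p * q) := by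
  have := hp.mul v hq
  rwa [_root_.mul_one] at this

lemma Pd.one_mul {γ : Γ₀} {p q : k[X]} (hp : Pd v 1 p) (hq : Pd v γ q) : Pd v γ (p * q) := by
  have := hp.mul v hq
  rwa [_root_.one_mul] at this

lemma Pd_zero (γ : Γ₀) : Pd v γ (0 : k[X]) := by
  intro i
  simp

lemma Pd_one : Pd v 1 (1 : k[X]) := by
  intro i
  rw [coeff_one]
  split_ifs <;> simp

lemma Pd_X_pow (n : ℕ) : Pd v 1 (X ^ n : k[X]) := by
  intro i
  rw [coeff_X_pow]
  split_ifs <;> simp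

/-- both components bounded -/
def Bd {f : k[X]} (γ : Γ₀) (z : HR k f) : Prop := Pd v γ z.re ∧ Pd v γ z.im

variable {f : k[X]}

lemma Bd.mono {γ δ : Γ₀} {z : HR k f} (h : Bd v γ z) (hγ : γ ≤ δ) : Bd v δ z :=
  ⟨h.1.mono v hγ, h.2.mono v hγ⟩

lemma Bd.add {γ : Γ₀} {z w : HR k f} (hz : Bd v γ z) (hw : Bd v γ w) : Bd v γ (z + w) :=
  ⟨hz.1.add v hw.1, hz.2.add v hw.2⟩

lemma Bd.mul (hf : Pd v 1 f) {γ δ : Γ₀} {z w : HR k f} (hz : Bd v γ z) (hw : Bd v δ w) :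
    Bd v (γ * δ) (z * w) := by
  refine ⟨?_, ?_⟩
  · rw [QuadraticAlgebra.re_mul]
    refine (hz.1.mul v hw.1).add v ?_
    exact ((hf.one_mul v hz.2)).mul v hw.2
  · rw [QuadraticAlgebra.im_mul]
    refine ((hz.1.mul v hw.2).add v (hz.2.mul v hw.1)).add v ?_
    rw [zero_mul, zero_mul]
    exact Pd_zero v _

lemma Bd_one : Bd v 1 (1 : HR k f) := by
  refine ⟨?_, ?_⟩
  · rw [QuadraticAlgebra.re_one]; exact Pd_one v
  · rw [QuadraticAlgebra.im_one]; exact Pd_zero v _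

lemma Bd_zero (γ : Γ₀) : Bd v γ (0 : HR k f) := by
  refine ⟨?_, ?_⟩
  · rw [QuadraticAlgebra.re_zero]; exact Pd_zero v _
  · rw [QuadraticAlgebra.im_zero]; exact Pd_zero v _

lemma Bd.mul_one' (hf : Pd v 1 f) {γ : Γ₀} {z w : HR k f} (hz : Bd v γ z) (hw : Bd v 1 w) :
    Bd v γ (z * w) := by
  have := hz.mul v hf hw
  rwa [_root_.mul_one] at this

lemma Bd.one_mul' (hf : Pd v 1 f) {γ : Γ₀} {z w : HR k f} (hz : Bd v 1 z) (hw : Bd v γ w) :
    Bd v γ (z * w) := by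
  have := hz.mul v hf hw
  rwa [_root_.one_mul] at this

/-- powers of `1 + small` -/
lemma Bd_one_add_pow (hf : Pd v 1 f) {γ : Γ₀} (hγ : γ ≤ 1) {z : HR k f} (hz : Bd v γ z) (n : ℕ) :
    ∃ w : HR k f, Bd v γ w ∧ (1 + z) ^ n = 1 + w := by
  induction n with
  | zero => exact ⟨0, Bd_zero v _, by simp⟩
  | succ n ih =>
    obtain ⟨w, hw, e⟩ := ih
    refine ⟨z + w + w * z, ?_, by rw [pow_succ, e]; ring⟩
    exact (hz.add v hw).add v (hw.mul_one' v hf (hz.mono v hγ))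

/-- binomial expansion to second order -/
lemma Bd_add_pow (hf : Pd v 1 f) {r o : HR k f} (hr : Bd v 1 r) (ho : Bd v 1 o) (n : ℕ) :
    ∃ t : HR k f, Bd v 1 t ∧ (r + o) ^ (n + 1) = r ^ (n + 1) + (n + 1 : ℕ) * r ^ n * o + o * o * t := by
  induction n with
  | zero => exact ⟨0, Bd_zero v _, by simp⟩
  | succ n ih =>
    obtain ⟨t, ht, e⟩ := ih
    have hN : Bd v 1 ((n + 1 : ℕ) : HR k f) := by
      have : ∀ m : ℕ, Bd v 1 ((m : ℕ) : HR k f) := by
        intro m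
        induction m with
        | zero => simpa using Bd_zero v _
        | succ m ih => rw [Nat.cast_succ]; exact ih.add v (Bd_one v)
      exact this _
    have hrn : ∀ m : ℕ, Bd v 1 (r ^ m) := by
      intro m
      induction m with
      | zero => simpa using Bd_one v
      | succ m ih => rw [pow_succ]; exact ih.mul_one' v hf hr
    refine ⟨(n + 1 : ℕ) * r ^ n + t * (r + o), ?_, ?_⟩
    · exact (hN.mul_one' v hf (hrn n)).add v (ht.mul_one' v hf (hr.add v ho))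
    · rw [pow_succ, e]
      push_cast
      ring

/-- a polynomial has a coefficient of maximal valuation -/
lemma exists_Pd (p : k[X]) : ∃ i, Pd v (v (p.coeff i)) p := by
  obtain ⟨i, _, hi⟩ := Finset.exists_max_image (Finset.range (p.natDegree + 1))
    (fun i => v (p.coeff i)) ⟨0, by simp⟩
  refine ⟨i, fun j => ?_⟩
  by_cases hj : j ≤ p.natDegree
  · exact hi j (by simpa [Nat.lt_succ_iff] using hj)
  · rw [coeff_eq_zero_of_natDegree_lt (by omega)]
    simp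

lemma exists_Bd (z : HR k f) : ∃ γ : Γ₀, Bd v γ z ∧
    ((∃ i, v (z.re.coeff i) = γ) ∨ (∃ i, v (z.im.coeff i) = γ)) := by
  obtain ⟨i, hi⟩ := exists_Pd v z.re
  obtain ⟨j, hj⟩ := exists_Pd v z.im
  rcases le_total (v (z.re.coeff i)) (v (z.im.coeff j)) with h | h
  · exact ⟨_, ⟨hi.mono v h, hj⟩, Or.inr ⟨j, rfl⟩⟩
  · exact ⟨_, ⟨hi, hj.mono v h⟩, Or.inl ⟨i, rfl⟩⟩

end Bd

section Deg

variable {k : Type u} [Field k]

/-- parity of degrees -/
lemma deg_of_norm {f : k[X]} {g D : ℕ} (hf : f.natDegree = 2 * g + 1) (p r : k[X])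
    (h : (p ^ 2 - f * r ^ 2).natDegree ≤ 2 * D) :
    p.natDegree ≤ D ∧ (r = 0 ∨ r.natDegree + g + 1 ≤ D) := by
  have hf0 : f ≠ 0 := by
    rintro rfl
    simp at hf
  by_cases hr : r = 0
  · subst hr
    refine ⟨?_, Or.inl rfl⟩
    simp only [ne_eq, OfNat.ofNat_ne_zero, not_false_eq_true, zero_pow, mul_zero, sub_zero,
      natDegree_pow] at h
    omega
  have h2 : (f * r ^ 2).natDegree = 2 * g + 1 + 2 * r.natDegree := by
    rw [natDegree_mul hf0 (pow_ne_zero _ hr), natDegree_pow, hf]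
  have h1 : (p ^ 2).natDegree = 2 * p.natDegree := natDegree_pow _ _
  rcases lt_or_ge (p ^ 2).natDegree (f * r ^ 2).natDegree with hlt | hge
  · rw [natDegree_sub_eq_right_of_natDegree_lt hlt] at h
    refine ⟨by omega, Or.inr (by omega)⟩
  · have hlt : (f * r ^ 2).natDegree < (p ^ 2).natDegree := by omega
    rw [natDegree_sub_eq_left_of_natDegree_lt hlt] at h
    refine ⟨by omega, Or.inr (by omega)⟩

lemma norm_ne_zero {f : k[X]} {g : ℕ} (hf : f.natDegree = 2 * g + 1) (p r : k[X])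
    (h : p ^ 2 - f * r ^ 2 = 0) : p = 0 ∧ r = 0 := by
  have hf0 : f ≠ 0 := by
    rintro rfl
    simp at hf
  have hr : r = 0 := by
    by_contra hr
    have h2 : (f * r ^ 2).natDegree = 2 * g + 1 + 2 * r.natDegree := by
      rw [natDegree_mul hf0 (pow_ne_zero _ hr), natDegree_pow, hf]
    have h1 : (p ^ 2).natDegree = 2 * p.natDegree := natDegree_pow _ _
    rw [sub_eq_zero.1 h] at h1
    omega
  subst hr
  refine ⟨?_, rfl⟩
  simpa using h

/-- the condition on the coefficients of `U` is multiplicative -/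
lemma coeff_pow {Γ₀ : Type u} [LinearOrderedCommGroupWithZero Γ₀] (v : Valuation k Γ₀) {μ : k}
    (hμ : μ ≠ 0) {U : k[X]} (h0 : U.coeff 0 = 1)
    (h1 : ∀ i, 1 ≤ i → v (U.coeff i) < v μ ^ (2 * i)) (j : ℕ) :
    (U ^ j).coeff 0 = 1 ∧ ∀ i, 1 ≤ i → v ((U ^ j).coeff i) < v μ ^ (2 * i) := by
  have hv : v μ ≠ 0 := (Valuation.ne_zero_iff v).2 hμ
  induction j with
  | zero =>
    refine ⟨by simp, fun i hi => ?_⟩
    rw [pow_zero, coeff_one, if_neg (by omega), map_zero]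
    exact zero_lt_iff.2 (pow_ne_zero _ hv)
  | succ j ih =>
    obtain ⟨ih0, ih1⟩ := ih
    refine ⟨by rw [pow_succ, mul_coeff_zero, ih0, h0, mul_one], fun i hi => ?_⟩
    rw [pow_succ, coeff_mul]
    apply v.map_sum_lt (pow_ne_zero _ hv)
    rintro ⟨a, b⟩ hab
    rw [Finset.HasAntidiagonal.mem_antidiagonal] at hab
    simp only at hab ⊢
    rw [map_mul]
    rcases Nat.eq_zero_or_pos a with rfl | ha
    · rw [ih0, map_one, one_mul]
      have : b = i := by omega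
      subst this
      exact h1 _ hi
    rcases Nat.eq_zero_or_pos b with rfl | hb
    · rw [h0, map_one, mul_one]
      have : a = i := by omega
      subst this
      exact ih1 _ hi
    · have e : v μ ^ (2 * i) = v μ ^ (2 * a) * v μ ^ (2 * b) := by
        rw [← pow_add, ← hab]
        ring_nf
      rw [e]
      exact mul_lt_mul'' (ih1 _ ha) (h1 _ hb) zero_le zero_le

end Deg

section Core

variable {k : Type u} [Field k] {Γ₀ : Type u} [LinearOrderedCommGroupWithZero Γ₀]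
  (v : Valuation k Γ₀)

lemma core (g : ℕ) (f : k[X]) (hff : Pd v 1 f) (μ : k) (hμ1 : v μ < 1) (l : ℕ)
    (hμl : v μ < v ((l + 1 : ℕ) : k)) (s0 s1 V0 V1 a b : k[X])
    (hs0 : s0.coeff 0 = 1) (hs0' : ∀ i, 1 ≤ i → v (s0.coeff i) ≤ v μ) (hs1 : Pd v (v μ) s1)
    (ha0 : a.coeff 0 = 1) (ha : ∀ i, 1 ≤ i → v (a.coeff i) ≤ v μ) (hb : Pd v (v μ) b)
    (hV : (⟨X ^ g * s0, s1⟩ : HR k f) ^ (l + 1) = ⟨a, b⟩ * ⟨V0, V1⟩)
    (hV0 : V0.natDegree ≤ g * (l + 1)) (hV1 : V1 = 0 ∨ V1.natDegree + g + 1 ≤ g * (l + 1)) :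
    ∀ i < g, s1.coeff i = 0 := by
  by_contra hcon
  push Not at hcon
  obtain ⟨j0, hj0, hj0'⟩ := hcon
  obtain ⟨i0, hi0, hmax⟩ := Finset.exists_max_image (Finset.range g)
    (fun i => v (s1.coeff i)) ⟨j0, by simpa using hj0⟩
  rw [Finset.mem_range] at hi0
  obtain ⟨β, hβ⟩ : ∃ β, β = v (s1.coeff i0) := ⟨_, rfl⟩
  have hβ0 : 0 < β := by
    have h1 := hmax j0 (by simpa using hj0)
    have h2 : 0 < v (s1.coeff j0) := zero_lt_iff.2 ((Valuation.ne_zero_iff v).2 hj0')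
    rw [hβ]
    exact h2.trans_le h1
  have hβμ : β ≤ v μ := hβ ▸ hs1 i0
  -- decomposition of `s1`
  obtain ⟨σ, hσ⟩ : ∃ σ : k[X], σ = ∑ i ∈ Finset.range g, monomial i (s1.coeff i) := ⟨_, rfl⟩
  have hσc : ∀ i, σ.coeff i = if i < g then s1.coeff i else 0 := by
    intro i
    rw [hσ, finsetSum_coeff]
    simp only [coeff_monomial]
    simp [Finset.sum_ite_eq']
  obtain ⟨s1', hs1'⟩ : X ^ g ∣ s1 - σ := by
    rw [X_pow_dvd_iff]
    intro d hd
    rw [coeff_sub, hσc, if_pos hd, sub_self]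
  have hs1'' : Pd v (v μ) s1' := by
    intro i
    have h1 : (s1 - σ).coeff (i + g) = s1'.coeff i := by rw [hs1', coeff_X_pow_mul]
    rw [← h1, coeff_sub, hσc, if_neg (by omega), sub_zero]
    exact hs1 _
  have hσβ : Pd v β σ := by
    intro i
    rw [hσc]
    split_ifs with h
    · rw [hβ]; exact hmax i (by simpa using h)
    · simp
  obtain ⟨XX, hXX⟩ : ∃ XX : HR k f, XX = ⟨X, 0⟩ := ⟨_, rfl⟩
  have hXXn : ∀ n : ℕ, XX ^ n = ⟨X ^ n, 0⟩ := by
    intro n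
    induction n with
    | zero => rw [pow_zero, pow_zero]; rfl
    | succ n ih => rw [pow_succ, ih, hXX]; refine QuadraticAlgebra.ext ?_ ?_ <;> simp [pow_succ]
  have hXXb : ∀ n : ℕ, Bd v 1 (XX ^ n) := by
    intro n
    rw [hXXn]
    exact ⟨Pd_X_pow v n, Pd_zero v _⟩
  obtain ⟨h1, hh1⟩ : ∃ h1 : HR k f, h1 = ⟨s0 - 1, s1'⟩ := ⟨_, rfl⟩
  obtain ⟨o, ho⟩ : ∃ o : HR k f, o = ⟨0, σ⟩ := ⟨_, rfl⟩
  obtain ⟨h', hh'⟩ : ∃ h' : HR k f, h' = ⟨a - 1, b⟩ := ⟨_, rfl⟩
  have small : ∀ p : k[X], p.coeff 0 = 1 → (∀ i, 1 ≤ i → v (p.coeff i) ≤ v μ) →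
      Pd v (v μ) (p - 1) := by
    intro p hp hp' i
    rw [coeff_sub, coeff_one]
    rcases Nat.eq_zero_or_pos i with rfl | hi
    · rw [if_pos rfl, hp, sub_self, map_zero]; exact zero_le
    · rw [if_neg (by omega), sub_zero]; exact hp' i hi
  have hbh1 : Bd v (v μ) h1 := by
    rw [hh1]; exact ⟨small _ hs0 hs0', hs1''⟩
  have hbh' : Bd v (v μ) h' := by
    rw [hh']; exact ⟨small _ ha0 ha, hb⟩
  have hbo : Bd v β o := by
    rw [ho]; exact ⟨Pd_zero v _, hσβ⟩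
  have hS : (⟨X ^ g * s0, s1⟩ : HR k f) = XX ^ g * (1 + h1) + o := by
    rw [hXXn, hh1, ho]
    have : s1 = X ^ g * s1' + σ := by rw [← hs1']; ring
    refine QuadraticAlgebra.ext ?_ ?_
    · simp [QuadraticAlgebra.re_one]
    · simp [QuadraticAlgebra.im_one, ← this]
  obtain ⟨t, ht, et⟩ := Bd_add_pow v hff (r := XX ^ g * (1 + h1)) (o := o)
    ((hXXb g).mul_one' v hff ((Bd_one v).add v (hbh1.mono v hμ1.le)))
    (hbo.mono v (hβμ.trans hμ1.le)) l
  obtain ⟨h2, hh2, eh2⟩ := Bd_one_add_pow v hff hμ1.le hbh1 l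
  obtain ⟨e, he⟩ : ∃ e : HR k f, e = (l + 1 : ℕ) * XX ^ (g * l) * (h2 * o) + o * o * t := ⟨_, rfl⟩
  have hN : ∀ m : ℕ, Bd v 1 ((m : ℕ) : HR k f) := by
    intro m
    induction m with
    | zero => simpa using Bd_zero v _
    | succ m ih => rw [Nat.cast_succ]; exact ih.add v (Bd_one v)
  have hbe : Bd v (v μ * β) e := by
    rw [he]
    refine ((((hN _).mul_one' v hff (hXXb _)).one_mul' v hff (hh2.mul v hff hbo))).add v ?_
    exact ((hbo.mono v hβμ).mul v hff hbo).mul_one' v hff ht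
  obtain ⟨E, hE⟩ : ∃ E, E = g * (l + 1) := ⟨_, rfl⟩
  have hE' : E = g * l + g := by rw [hE]; ring
  obtain ⟨v0, hv0⟩ : ∃ v0, v0 = V0.coeff E := ⟨_, rfl⟩
  obtain ⟨V', hV'⟩ : ∃ V' : HR k f, V' = ⟨V0 - C v0 * X ^ E, V1⟩ := ⟨_, rfl⟩
  obtain ⟨c0, hc0⟩ : ∃ c0 : HR k f, c0 = ⟨C v0, 0⟩ := ⟨_, rfl⟩
  have eV : (⟨V0, V1⟩ : HR k f) = V' + c0 * XX ^ E := by
    rw [hV', hc0, hXXn]
    refine QuadraticAlgebra.ext ?_ ?_ <;> simp
  have eh : (⟨a, b⟩ : HR k f) = 1 + h' := by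
    rw [hh']
    refine QuadraticAlgebra.ext ?_ ?_ <;> simp [QuadraticAlgebra.re_one, QuadraticAlgebra.im_one]
  have key : V' = -(h' * V') + XX ^ E * ((1 + h1) ^ (l + 1) - c0 * (1 + h')) +
      (l + 1 : ℕ) * XX ^ (g * l) * o + e := by
    have h3 : (XX ^ g * (1 + h1)) ^ (l + 1) + (l + 1 : ℕ) * (XX ^ g * (1 + h1)) ^ l * o + o * o * t
        = (1 + h') * (V' + c0 * XX ^ E) := by
      rw [← et, ← hS, hV, eV, eh]
    have h4 : (XX ^ g * (1 + h1)) ^ (l + 1) = XX ^ E * (1 + h1) ^ (l + 1) := by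
      rw [mul_pow, ← pow_mul, hE]
    have h5 : (XX ^ g * (1 + h1)) ^ l = XX ^ (g * l) * (1 + h2) := by
      rw [mul_pow, ← pow_mul, eh2]
    rw [h4, h5] at h3
    rw [he]
    linear_combination -h3
  have cre : ∀ i, i < E → ∀ w : HR k f, (XX ^ E * w).re.coeff i = 0 := by
    intro i hi w
    rw [hXXn, QuadraticAlgebra.re_mul]
    simp only [mul_zero, zero_mul, add_zero]
    rw [coeff_X_pow_mul', if_neg (by omega)]
  have cim : ∀ i, i < E → ∀ w : HR k f, (XX ^ E * w).im.coeff i = 0 := by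
    intro i hi w
    rw [hXXn, QuadraticAlgebra.im_mul]
    simp only [mul_zero, zero_mul, add_zero]
    rw [coeff_X_pow_mul', if_neg (by omega)]
  have eo : (((l + 1 : ℕ) : HR k f) * XX ^ (g * l) * o : HR k f) =
      ⟨0, ((l + 1 : ℕ) : k[X]) * (X ^ (g * l) * σ)⟩ := by
    rw [hXXn, ho]
    refine QuadraticAlgebra.ext ?_ ?_
    · simp only [QuadraticAlgebra.re_mul, QuadraticAlgebra.im_mul, QuadraticAlgebra.im_natCast]
      ring
    · simp only [QuadraticAlgebra.re_mul, QuadraticAlgebra.im_mul, QuadraticAlgebra.im_natCast,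
        QuadraticAlgebra.re_natCast]
      ring
  obtain ⟨γ, hγ, hγ'⟩ := exists_Bd v V'
  have hbhV : Bd v (v μ * γ) (h' * V') := hbh'.mul v hff hγ
  have hV0c : ∀ i, E ≤ i → V'.re.coeff i = 0 := by
    intro i hi
    rw [hV']
    simp only [coeff_sub, coeff_C_mul_X_pow]
    rcases hi.eq_or_lt with rfl | hi
    · simp [hv0]
    · rw [if_neg (by omega), sub_zero, coeff_eq_zero_of_natDegree_lt (by omega)]
  have hV1c : ∀ i, g * l ≤ i → V'.im.coeff i = 0 := by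
    intro i hi
    rw [hV']
    simp only
    rcases hV1 with h | h
    · rw [h, coeff_zero]
    · rw [coeff_eq_zero_of_natDegree_lt]
      omega
  have hre : ∀ i, i < E → v (V'.re.coeff i) ≤ max (v μ * γ) (v μ * β) := by
    intro i hi
    have h6 : V'.re.coeff i = -(h' * V').re.coeff i + e.re.coeff i := by
      conv_lhs => rw [key]
      rw [eo]
      simp only [QuadraticAlgebra.re_add, QuadraticAlgebra.re_neg, coeff_add, coeff_neg]
      rw [cre i hi]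
      simp
    rw [h6]
    apply v.map_add_le
    · rw [Valuation.map_neg]; exact (hbhV.1 i).trans (le_max_left _ _)
    · exact (hbe.1 i).trans (le_max_right _ _)
  have him : ∀ i, i < g * l → v (V'.im.coeff i) ≤ max (v μ * γ) (v μ * β) := by
    intro i hi
    have h6 : V'.im.coeff i = -(h' * V').im.coeff i + e.im.coeff i := by
      conv_lhs => rw [key]
      rw [eo]
      simp only [QuadraticAlgebra.im_add, QuadraticAlgebra.im_neg, coeff_add, coeff_neg]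
      rw [cim i (by omega), coeff_natCast_mul, coeff_X_pow_mul', if_neg (by omega)]
      simp
    rw [h6]
    apply v.map_add_le
    · rw [Valuation.map_neg]; exact (hbhV.2 i).trans (le_max_left _ _)
    · exact (hbe.2 i).trans (le_max_right _ _)
  have hγβ : γ ≤ v μ * β := by
    have h7 : γ ≤ max (v μ * γ) (v μ * β) := by
      rcases hγ' with ⟨i, hi⟩ | ⟨i, hi⟩
      · by_cases h : i < E
        · rw [← hi]; rw [hi]; rw [← hi]; exact hi ▸ hre i h
        · rw [← hi, hV0c i (by omega), map_zero]; exact zero_le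
      · by_cases h : i < g * l
        · exact hi ▸ him i h
        · rw [← hi, hV1c i (by omega), map_zero]; exact zero_le
    rcases le_max_iff.1 h7 with h | h
    · have : γ = 0 := by
        by_contra hne
        have h8 : v μ * γ < 1 * γ := mul_lt_mul_of_pos_right hμ1 (zero_lt_iff.2 hne)
        rw [one_mul] at h8
        exact absurd h (not_le.2 h8)
      rw [this]; exact zero_le
    · exact h
  have h9 : (0 : k) = -(h' * V').im.coeff (g * l + i0) + (l + 1 : ℕ) * s1.coeff i0 +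
      e.im.coeff (g * l + i0) := by
    have h10 := hV1c (g * l + i0) (by omega)
    rw [key, eo] at h10
    simp only [QuadraticAlgebra.im_add, QuadraticAlgebra.im_neg, coeff_add, coeff_neg] at h10
    rw [cim _ (by omega), coeff_natCast_mul, coeff_X_pow_mul', if_pos (by omega),
      Nat.add_sub_cancel_left, hσc, if_pos hi0] at h10
    rw [← h10]
    ring
  have h11 : ((l + 1 : ℕ) : k) * s1.coeff i0 = (h' * V').im.coeff (g * l + i0) -
      e.im.coeff (g * l + i0) := by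
    linear_combination -h9
  have h12 : v (((l + 1 : ℕ) : k) * s1.coeff i0) ≤ v μ * β := by
    rw [h11]
    apply v.map_sub_le
    · refine (hbhV.2 _).trans ?_
      have : γ ≤ β := hγβ.trans (by
        calc v μ * β ≤ 1 * β := mul_le_mul_left hμ1.le _
          _ = β := one_mul _)
      exact mul_le_mul_right this _
    · exact hbe.2 _
  rw [map_mul, ← hβ] at h12
  have h13 : v μ * β < v ((l + 1 : ℕ) : k) * β := mul_lt_mul_of_pos_right hμl hβ0
  exact absurd h12 (not_le.2 h13)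

end Core

section Final

variable {k : Type u} [Field k]

lemma ev_pow {f W P : k[X]} (z : HR k f) (n : ℕ) (N : ℕ) (hN : P ^ N ∣ W ^ 2 - f)
    (hz : P ∣ z.re + z.im * W) (hn : n ≤ N) : P ^ n ∣ (z ^ n).re + (z ^ n).im * W := by
  induction n with
  | zero => simp
  | succ n ih =>
    have h1 := ih (by omega)
    have h2 : (z ^ (n + 1)).re + (z ^ (n + 1)).im * W =
        ((z ^ n).re + (z ^ n).im * W) * (z.re + z.im * W) -
          (W ^ 2 - f) * ((z ^ n).im * z.im) := by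
      rw [pow_succ, QuadraticAlgebra.re_mul, QuadraticAlgebra.im_mul]
      ring
    rw [h2]
    apply dvd_sub
    · rw [pow_succ]
      exact mul_dvd_mul h1 hz
    · exact ((pow_dvd_pow P hn).trans hN).mul_right _

lemma exists_quot {f W Q a b : k[X]} {c : k} (hc : c ≠ 0) (hQ0 : Q ≠ 0) (z : HR k f)
    (hW : Q ∣ W ^ 2 - f) (hz : Q ∣ z.re + z.im * W) (hab : a ^ 2 - f * b ^ 2 = C c * Q)
    (hab2 : Q ∣ a + b * W) : ∃ V0 V1 : k[X], z = (⟨a, b⟩ : HR k f) * ⟨V0, V1⟩ := by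
  obtain ⟨A, B⟩ := z
  simp only at hz
  obtain ⟨x, hx⟩ := hW
  obtain ⟨y, hy⟩ := hz
  obtain ⟨w, hw⟩ := hab2
  have hA : A = Q * y - B * W := by rw [← hy]; ring
  have ha : a = Q * w - b * W := by rw [← hw]; ring
  have d1 : Q ∣ A * a - f * B * b := by
    refine ⟨y * a - B * W * w + B * b * x, ?_⟩
    have : A * a - f * B * b = (A + B * W) * a - B * W * (a + b * W) + B * b * (W ^ 2 - f) := by ring
    rw [this, hy, hw, hx]
    ring
  have d2 : Q ∣ B * a - A * b := by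
    refine ⟨B * w - b * y, ?_⟩
    have : B * a - A * b = B * (a + b * W) - b * (A + B * W) := by ring
    rw [this, hy, hw]
    ring
  obtain ⟨V0, hV0⟩ := d1
  obtain ⟨V1, hV1⟩ := d2
  refine ⟨C c⁻¹ * V0, C c⁻¹ * V1, ?_⟩
  have hcc : (C c : k[X]) * C c⁻¹ = 1 := by rw [← C_mul, mul_inv_cancel₀ hc, C_1]
  have hcQ : (C c : k[X]) * Q ≠ 0 := mul_ne_zero (by simpa using hc) hQ0
  refine QuadraticAlgebra.ext ?_ ?_
  · apply mul_left_cancel₀ hcQ
    rw [QuadraticAlgebra.re_mul]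
    simp only
    linear_combination (-A) * hab + a * hV0 + f * b * hV1 -
      (Q * (a * V0 + f * b * V1)) * hcc
  · apply mul_left_cancel₀ hcQ
    rw [QuadraticAlgebra.im_mul]
    simp only
    linear_combination (-B) * hab + a * hV1 + b * hV0 -
      (Q * (a * V1 + b * V0)) * hcc

lemma norm_pow {f : k[X]} (z : HR k f) (n : ℕ) :
    (z ^ n).re ^ 2 - f * (z ^ n).im ^ 2 = (z.re ^ 2 - f * z.im ^ 2) ^ n := by
  induction n with
  | zero =>
    rw [pow_zero, pow_zero, QuadraticAlgebra.re_one, QuadraticAlgebra.im_one]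
    ring
  | succ n ih =>
    rw [pow_succ (z.re ^ 2 - f * z.im ^ 2), ← ih, pow_succ z, QuadraticAlgebra.re_mul,
      QuadraticAlgebra.im_mul]
    ring

lemma scale {Γ₀ : Type u} [LinearOrderedCommGroupWithZero Γ₀] (v : Valuation k Γ₀) {κ : k}
    (hκ : κ ≠ 0) {p : k[X]} {i : ℕ} {t : Γ₀} (h : v (p.coeff i) ≤ v κ * t) :
    v ((C κ⁻¹ * p).coeff i) ≤ t := by
  rw [coeff_C_mul, map_mul, map_inv₀]
  have hv : v κ ≠ 0 := (Valuation.ne_zero_iff v).2 hκ
  calc (v κ)⁻¹ * v (p.coeff i) ≤ (v κ)⁻¹ * (v κ * t) := mul_le_mul_right h _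
    _ = t := by rw [← mul_assoc, inv_mul_cancel₀ hv, one_mul]

/-- PL: extraction of an `ℓ`-th root. -/
theorem PL (hEX : T_EX.{u}) (hNL : T_NL.{u}) : T_PL.{u} := by
  intro k _ Γ₀ _ v g f hfm hfd hfi μ hμ0 hμ1 ℓ j hℓ hj hμℓ U W a b c hU hU0 hUi hdvd hc hab hab2
  obtain ⟨l, rfl⟩ : ∃ l, ℓ = l + 1 := ⟨ℓ - 1, by omega⟩
  have hUne : U ≠ 0 := by rintro rfl; simp at hU0
  have hUj : U ^ j ≠ 0 := pow_ne_zero _ hUne
  have hUdj : (U ^ j).natDegree = j * U.natDegree := natDegree_pow _ _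
  have hpow_le : ∀ n : ℕ, 1 ≤ n → v μ ^ n ≤ v μ := by
    intro n hn
    calc v μ ^ n ≤ v μ ^ 1 := pow_le_pow_right_of_le_one' hμ1.le hn
      _ = v μ := pow_one _
  -- step 1
  obtain ⟨s0, s1, hne, hs, hd0, hd1⟩ := hEX k (U ^ j) W g (by
    rw [hUdj]; exact Nat.succ_le_of_lt (Nat.mul_pos hj hU))
  have hlj : U ^ ((l + 1) * j) = (U ^ j) ^ (l + 1) := by rw [← pow_mul, mul_comm]
  have hUW : U ^ j ∣ W ^ 2 - f := by
    refine dvd_trans ?_ hdvd
    rw [hlj]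
    exact dvd_pow_self _ (by omega)
  obtain ⟨q, hq⟩ : U ^ j ∣ (X ^ g * s0) ^ 2 - f * s1 ^ 2 := by
    have : (X ^ g * s0) ^ 2 - f * s1 ^ 2 =
        (X ^ g * s0 + s1 * W) * (X ^ g * s0 - s1 * W) + (W ^ 2 - f) * s1 ^ 2 := by ring
    rw [this]
    exact dvd_add (hs.mul_right _) (hUW.mul_right _)
  have hqd : q.natDegree ≤ 2 * g := by
    by_cases hq0 : q = 0
    · rw [hq0]; simp
    have h1 : (U ^ j * q).natDegree = (U ^ j).natDegree + q.natDegree := natDegree_mul hUj hq0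
    have h2 : ((X ^ g * s0) ^ 2 - f * s1 ^ 2).natDegree ≤ 2 * g + (U ^ j).natDegree := by
      refine (natDegree_sub_le _ _).trans (max_le ?_ ?_)
      · rw [natDegree_pow]
        have : (X ^ g * s0).natDegree ≤ g + s0.natDegree := by
          refine natDegree_mul_le.trans ?_
          rw [natDegree_X_pow]
        omega
      · refine natDegree_mul_le.trans ?_
        rw [natDegree_pow, hfd]
        omega
    rw [hq, h1] at h2
    omega
  obtain ⟨hUj0, hUji⟩ := coeff_pow v hμ0 hU0 hUi j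
  obtain ⟨hs00, hs0i, hs1i⟩ := hNL k Γ₀ v g g f hfm hfd hfi le_rfl μ hμ0 hμ1.le (U ^ j) s0 s1 q
    hUj0 hUji (by rw [← hq]; ring) hqd hne
  -- step 2
  obtain ⟨hUL0, hULi⟩ := coeff_pow v hμ0 hU0 hUi ((l + 1) * j)
  have hUL : U ^ ((l + 1) * j) ≠ 0 := pow_ne_zero _ hUne
  have hCc : (C c : k[X]) ≠ 0 := by simpa using hc
  obtain ⟨ha00, hai, hbi⟩ := hNL k Γ₀ v g 0 f hfm hfd hfi (Nat.zero_le _) μ hμ0 hμ1.le
    (U ^ ((l + 1) * j)) a b (C c) hUL0 hULi (by rw [mul_comm (U ^ ((l + 1) * j)), ← hab]; ring)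
    (by simp) (by
      by_contra hcon
      push Not at hcon
      rw [hcon.1, hcon.2] at hab
      have h3 : (C c : k[X]) * U ^ ((l + 1) * j) = 0 := by rw [← hab]; ring
      exact (mul_ne_zero hCc hUL) h3)
  -- scaling
  obtain ⟨s0', hs0'⟩ : ∃ s0', s0' = C (s0.coeff 0)⁻¹ * s0 := ⟨_, rfl⟩
  obtain ⟨s1', hs1'⟩ : ∃ s1', s1' = C (s0.coeff 0)⁻¹ * s1 := ⟨_, rfl⟩
  obtain ⟨q', hq'⟩ : ∃ q', q' = C ((s0.coeff 0)⁻¹ ^ 2) * q := ⟨_, rfl⟩
  obtain ⟨a', ha'⟩ : ∃ a', a' = C (a.coeff 0)⁻¹ * a := ⟨_, rfl⟩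
  obtain ⟨b', hb'⟩ : ∃ b', b' = C (a.coeff 0)⁻¹ * b := ⟨_, rfl⟩
  obtain ⟨c', hc'⟩ : ∃ c', c' = (a.coeff 0)⁻¹ ^ 2 * c := ⟨_, rfl⟩
  have hc'0 : c' ≠ 0 := by
    rw [hc']; exact mul_ne_zero (pow_ne_zero _ (inv_ne_zero ha00)) hc
  have hs2 : U ^ j ∣ X ^ g * s0' + s1' * W := by
    have : X ^ g * s0' + s1' * W = (X ^ g * s0 + s1 * W) * C (s0.coeff 0)⁻¹ := by
      rw [hs0', hs1']; ring
    rw [this]
    exact hs.mul_right _
  have hqq : (X ^ g * s0') ^ 2 - f * s1' ^ 2 = U ^ j * q' := by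
    rw [hs0', hs1', hq', C_pow]
    linear_combination (C (s0.coeff 0)⁻¹) ^ 2 * hq
  have hqd' : q'.natDegree ≤ 2 * g := by
    rw [hq']
    exact (natDegree_C_mul_le _ _).trans hqd
  have habb : a' ^ 2 - f * b' ^ 2 = C c' * U ^ ((l + 1) * j) := by
    rw [ha', hb', hc', C_mul, C_pow]
    linear_combination (C (a.coeff 0)⁻¹) ^ 2 * hab
  have hab3 : U ^ ((l + 1) * j) ∣ a' + b' * W := by
    have : a' + b' * W = (a + b * W) * C (a.coeff 0)⁻¹ := by
      rw [ha', hb']; ring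
    rw [this]
    exact hab2.mul_right _
  obtain ⟨z, hz⟩ : ∃ z : HR k f, z = ⟨X ^ g * s0', s1'⟩ := ⟨_, rfl⟩
  have hzre : z.re = X ^ g * s0' := by rw [hz]
  have hzim : z.im = s1' := by rw [hz]
  obtain ⟨V0, V1, hV⟩ := exists_quot hc'0 hUL (z ^ (l + 1)) hdvd (by
    rw [hlj]
    refine ev_pow z (l + 1) (l + 1) (by rw [← hlj]; exact hdvd) ?_ le_rfl
    rw [hzre, hzim]; exact hs2) habb hab3
  -- degrees of `V`
  have hNV : (V0 ^ 2 - f * V1 ^ 2) * C c' = q' ^ (l + 1) := by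
    have h1 := norm_pow z (l + 1)
    rw [hzre, hzim, hqq, hV, QuadraticAlgebra.re_mul, QuadraticAlgebra.im_mul] at h1
    simp only at h1
    apply mul_left_cancel₀ hUL
    calc U ^ ((l + 1) * j) * ((V0 ^ 2 - f * V1 ^ 2) * C c')
        = (a' ^ 2 - f * b' ^ 2) * (V0 ^ 2 - f * V1 ^ 2) := by rw [habb]; ring
      _ = (U ^ j * q') ^ (l + 1) := by rw [← h1]; ring
      _ = U ^ ((l + 1) * j) * q' ^ (l + 1) := by rw [mul_pow, ← hlj]
  have hNVd : (V0 ^ 2 - f * V1 ^ 2).natDegree ≤ 2 * (g * (l + 1)) := by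
    have h1 : ((V0 ^ 2 - f * V1 ^ 2) * C c').natDegree = (V0 ^ 2 - f * V1 ^ 2).natDegree :=
      natDegree_mul_C hc'0
    rw [← h1, hNV, natDegree_pow]
    calc (l + 1) * q'.natDegree ≤ (l + 1) * (2 * g) := Nat.mul_le_mul_left _ hqd'
      _ = 2 * (g * (l + 1)) := by ring
  obtain ⟨hV0d, hV1d⟩ := deg_of_norm hfd V0 V1 hNVd
  -- the core
  have hcore := core v g f hfi μ hμ1 l hμℓ s0' s1' V0 V1 a' b'
    (by rw [hs0', coeff_C_mul, inv_mul_cancel₀ hs00])
    (fun i hi => by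
      rw [hs0']
      apply scale v hs00
      exact (hs0i i hi).le.trans (mul_le_mul_right (hpow_le _ (by omega)) _))
    (fun i => by
      rw [hs1']
      apply scale v hs00
      exact (hs1i i).le.trans (mul_le_mul_right (hpow_le _ (by omega)) _))
    (by rw [ha', coeff_C_mul, inv_mul_cancel₀ ha00])
    (fun i hi => by
      rw [ha']
      apply scale v ha00
      exact (hai i hi).le.trans (mul_le_mul_right (hpow_le _ (by omega)) _))
    (fun i => by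
      rw [hb']
      apply scale v ha00
      exact (hbi i).le.trans (mul_le_mul_right (hpow_le _ (by omega)) _))
    (by rw [← hz]; exact hV) hV0d hV1d
  obtain ⟨t, ht⟩ : X ^ g ∣ s1' := X_pow_dvd_iff.2 hcore
  -- the end
  have hX : IsCoprime (X : k[X]) U := by
    rw [irreducible_X.coprime_iff_not_dvd, X_dvd_iff, hU0]
    exact one_ne_zero
  have hX2 : IsCoprime ((X : k[X]) ^ (2 * g)) (U ^ j) := hX.pow
  have hX1 : IsCoprime (U ^ j) ((X : k[X]) ^ g) := hX.symm.pow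
  have e1 : X ^ (2 * g) * (s0' ^ 2 - f * t ^ 2) = U ^ j * q' := by
    rw [← hqq, ht]
    ring
  obtain ⟨q'', hq''⟩ : X ^ (2 * g) ∣ q' := by
    apply hX2.dvd_of_dvd_mul_left
    exact ⟨_, e1.symm⟩
  have e2 : s0' ^ 2 - f * t ^ 2 = U ^ j * q'' := by
    apply mul_left_cancel₀ (pow_ne_zero (2 * g) (X_ne_zero (R := k)))
    rw [e1, hq'']
    ring
  have hs0ne : s0' ≠ 0 := by
    rintro h0
    have h1 : s0'.coeff 0 = 1 := by rw [hs0', coeff_C_mul, inv_mul_cancel₀ hs00]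
    rw [h0] at h1
    simp at h1
  have hq''0 : q'' ≠ 0 := by
    rintro rfl
    rw [mul_zero] at e2
    exact hs0ne (norm_ne_zero hfd _ _ e2).1
  have hq''d : q''.natDegree = 0 := by
    have h1 : q'.natDegree = 2 * g + q''.natDegree := by
      rw [hq'', natDegree_mul (pow_ne_zero _ X_ne_zero) hq''0, natDegree_X_pow]
    omega
  obtain ⟨κ, hκ⟩ := natDegree_eq_zero.1 hq''d
  refine ⟨s0', t, κ, ?_, ?_, ?_⟩
  · rintro rfl
    rw [C_0] at hκ
    exact hq''0 hκ.symm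
  · rw [e2, ← hκ]; ring
  · apply hX1.dvd_of_dvd_mul_left
    have : X ^ g * (s0' + t * W) = X ^ g * s0' + s1' * W := by rw [ht]; ring
    rw [this]
    exact hs2

end Final

end Pool.Agent.H91.HE

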